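import Pool.Agent.W314.BA.Stm

/-!
# BA-SE: equivariance of the sheet function
-/

set_option autoImplicit false

open MeasureTheory Set

namespace Pool.Agent.W18.BA.SE

open Pool.Agent.W314.BA
open Pool.Agent.W745 (mul_00 mul_01 mul_10 mul_11)

/-- the action of the element `(a,b,c,d)` on walls -/
def T (a b c d : ℤ) (v : ℤ × ℤ × ℤ) : ℤ × ℤ × ℤ :=
  (v.1 * (a ^ 2 + 9 * b ^ 2 + 3 * c ^ 2 + 3 * d ^ 2) + 2 * v.2.2 * (a * c - 3 * b * d)
      - 2 * v.2.1 * (a * d + 3 * b * c),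
   v.2.1 * (a ^ 2 - 9 * b ^ 2 - 3 * c ^ 2 + 3 * d ^ 2) + 6 * v.2.2 * (a * b - c * d)
      - 6 * v.1 * (a * d - 3 * b * c),
   6 * v.1 * (a * c + 3 * b * d) + v.2.2 * (a ^ 2 + 3 * c ^ 2 - 9 * b ^ 2 - 3 * d ^ 2)
      - 6 * v.2.1 * (a * b + c * d))

theorem T_inv {a b c d : ℤ} (h : a ^ 2 + 9 * b ^ 2 - 3 * c ^ 2 - 3 * d ^ 2 = 1)
    (v : ℤ × ℤ × ℤ) : T a (-b) (-c) (-d) (T a b c d v) = v := by
  obtain ⟨p, q, r⟩ := v
  have h2 : (a ^ 2 + 9 * b ^ 2 - 3 * c ^ 2 - 3 * d ^ 2) ^ 2 = 1 := by rw [h]; norm_num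
  unfold T
  refine Prod.ext ?_ (Prod.ext ?_ ?_)
  · show _ = p
    simp only
    linear_combination p * h2
  · show _ = q
    simp only
    linear_combination q * h2
  · show _ = r
    simp only
    linear_combination r * h2

theorem T_inv' {a b c d : ℤ} (h : a ^ 2 + 9 * b ^ 2 - 3 * c ^ 2 - 3 * d ^ 2 = 1)
    (v : ℤ × ℤ × ℤ) : T a b c d (T a (-b) (-c) (-d) v) = v := by
  have := T_inv (a := a) (b := -b) (c := -c) (d := -d) (by linear_combination h) v
  simpa using this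

/-- the action as a permutation -/
def TE {a b c d : ℤ} (h : a ^ 2 + 9 * b ^ 2 - 3 * c ^ 2 - 3 * d ^ 2 = 1) :
    (ℤ × ℤ × ℤ) ≃ (ℤ × ℤ × ℤ) where
  toFun := T a b c d
  invFun := T a (-b) (-c) (-d)
  left_inv := T_inv h
  right_inv := T_inv' h

theorem T_mem {a b c d : ℤ} (h : a ^ 2 + 9 * b ^ 2 - 3 * c ^ 2 - 3 * d ^ 2 = 1)
    {v : ℤ × ℤ × ℤ} (hv : v ∈ Vset) : T a b c d v ∈ Vset := by
  obtain ⟨p, q, r⟩ := v
  obtain ⟨h1, h2⟩ := hv
  simp only at h1 h2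
  have h3 : (a ^ 2 + 9 * b ^ 2 - 3 * c ^ 2 - 3 * d ^ 2) ^ 2 = 1 := by rw [h]; norm_num
  refine ⟨?_, ?_⟩
  · show (T a b c d (p, q, r)).2.1 ^ 2 + (T a b c d (p, q, r)).2.2 ^ 2 =
      1 + 3 * (T a b c d (p, q, r)).1 ^ 2
    unfold T
    simp only
    linear_combination (q ^ 2 + r ^ 2 - 3 * p ^ 2) * h3 + h1
  · show (T a b c d (p, q, r)).2.1 % 6 = 1
    have h4 : (T a b c d (p, q, r)).2.1 =
        q + 6 * (q * (d ^ 2 - 3 * b ^ 2) + r * (a * b - c * d) - p * (a * d - 3 * b * c)) := by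
      unfold T
      simp only
      linear_combination q * h
    rw [h4]
    omega

theorem T_mem_iff {a b c d : ℤ} (h : a ^ 2 + 9 * b ^ 2 - 3 * c ^ 2 - 3 * d ^ 2 = 1)
    (v : ℤ × ℤ × ℤ) : T a b c d v ∈ Vset ↔ v ∈ Vset := by
  constructor
  · intro hv
    have := T_mem (a := a) (b := -b) (c := -c) (d := -d) (by linear_combination h) hv
    rwa [T_inv h] at this
  · exact T_mem h

theorem Lam_one (v : ℤ × ℤ × ℤ) : Lam 1 v = 6 * v.1 := by
  unfold Lam
  simp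
  ring

theorem Lam_mul {a b c d : ℤ} (g γ : G)
    (h00 : γ.1 0 0 = a + c * √3) (h01 : γ.1 0 1 = 3 * b + d * √3)
    (h10 : γ.1 1 0 = -3 * b + d * √3) (h11 : γ.1 1 1 = a - c * √3) (v : ℤ × ℤ × ℤ) :
    Lam (g * γ) v = Lam g (T a b c d v) := by
  obtain ⟨p, q, r⟩ := v
  have h3 : √3 ^ 2 = 3 := Real.sq_sqrt (by norm_num)
  unfold Lam T
  rw [mul_00, mul_01, mul_10, mul_11, h00, h01, h10, h11]
  generalize √3 = s at *
  generalize g.1 0 0 = x
  generalize g.1 0 1 = y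
  generalize g.1 1 0 = z
  generalize g.1 1 1 = w
  push_cast
  linear_combination ((x ^ 2 + z ^ 2) * (3 * p * c ^ 2 + r * s * c ^ 2 + 2 * a * c * r
      - 2 * q * s * c * d - 2 * q * (a * d + 3 * b * c) + 3 * p * d ^ 2 - r * s * d ^ 2
      - 6 * b * d * r)
    + 2 * (x * y + z * w) * (2 * r * s * c * d + q * s * (c ^ 2 - d ^ 2))
    + (y ^ 2 + w ^ 2) * (3 * p * d ^ 2 + r * s * d ^ 2 - 6 * b * d * r + 2 * q * s * c * d
      - 2 * q * (a * d + 3 * b * c) + 3 * p * c ^ 2 - r * s * c ^ 2 + 2 * a * c * r)) * h3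

theorem wal_fin (h : WalStmt) (g : G) : (Function.support (wal g)).Finite := by
  obtain ⟨N, hN⟩ := exists_nat_gt (hh g ^ 2)
  have h1 : Function.support (wal g) ⊆
      (Icc (-(N : ℤ)) N) ×ˢ ((Icc (-(3 * N + 1 : ℤ)) (3 * N + 1)) ×ˢ (Icc (-(3 * N + 1 : ℤ)) (3 * N + 1))) := by
    intro v hv
    have hv1 : v ∈ Vset := by
      by_contra hc
      apply hv
      unfold wal
      simp [hc]
    have hv2 : 3 * (v.1 : ℝ) ^ 2 < hh g ^ 2 := by
      by_contra hc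
      exact hv (h g v hv1 (not_lt.1 hc))
    have hv3 : 3 * (v.1 : ℝ) ^ 2 < N := hv2.trans hN
    have hv4 : 3 * v.1 ^ 2 < (N : ℤ) := by exact_mod_cast hv3
    obtain ⟨p, q, r⟩ := v
    obtain ⟨h5, -⟩ := hv1
    simp only at h5 hv4
    simp only [mem_prod, mem_Icc]
    refine ⟨⟨?_, ?_⟩, ⟨?_, ?_⟩, ?_, ?_⟩ <;> nlinarith [sq_nonneg p, sq_nonneg q, sq_nonneg r]
  exact (((finite_Icc _ _).prod ((finite_Icc _ _).prod (finite_Icc _ _)))).subset h1

theorem main (h : WalStmt) : SgMulStmt := by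
  intro g γ hγ
  obtain ⟨a, b, c, d, hn, h00, h01, h10, h11⟩ := hγ
  have key : ∀ v, wal (g * γ) v = wal g (T a b c d v) + wal γ v := by
    intro v
    have h1 := Lam_mul g γ h00 h01 h10 h11 v
    have h2 := Lam_mul 1 γ h00 h01 h10 h11 v
    rw [one_mul, Lam_one] at h2
    have h3 := T_mem_iff hn v
    have h4 : (0 < Lam γ v) ↔ 0 < (T a b c d v).1 := by
      rw [h2]
      constructor
      · intro h
        have : (0 : ℝ) < ((T a b c d v).1 : ℝ) := by linarith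
        exact_mod_cast this
      · intro h
        have : (0 : ℝ) < ((T a b c d v).1 : ℝ) := by exact_mod_cast h
        linarith
    unfold wal
    rw [h1]
    by_cases hv : v ∈ Vset
    · have hv' := h3.2 hv
      by_cases h5 : 0 < (T a b c d v).1
      · have h6 := h4.2 h5
        simp only [hv, hv', h5, h6, true_and, if_true]
        ring
      · have h6 : ¬ (0 < Lam γ v) := fun h => h5 (h4.1 h)
        simp only [hv, hv', h5, h6, true_and, if_false]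
        ring
    · have hv' : ¬ (T a b c d v ∈ Vset) := fun h => hv (h3.1 h)
      simp only [hv, hv', false_and, if_false]
      ring
  unfold sg
  rw [finsum_congr key, finsum_add_distrib ?_ (wal_fin h γ)]
  · congr 1
    exact finsum_comp_equiv (TE hn) (f := wal g)
  · exact (wal_fin h g).preimage (TE hn).injective.injOn

end Pool.Agent.W18.BA.SE

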