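import Pool.Agent.W314.BA.Stm

/-!
# BA-SH: short vectors in the lattice `g O` (Minkowski)
-/

set_option autoImplicit false

open MeasureTheory Set

namespace Pool.Agent.W18.BA.SH

open Pool.Agent.W314.BA

/-- the matrix of the linear map `(a,b,c,d) ↦ ` entries of `g * N`, with `q` for `√3` -/
noncomputable def Aq (q : ℝ) (g : G) : Matrix (Fin 4) (Fin 4) ℝ :=
  !![g.1 0 0, -3 * g.1 0 1, q * g.1 0 0, q * g.1 0 1;
     g.1 0 1, 3 * g.1 0 0, -(q * g.1 0 1), q * g.1 0 0;
     g.1 1 0, -3 * g.1 1 1, q * g.1 1 0, q * g.1 1 1;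
     g.1 1 1, 3 * g.1 1 0, -(q * g.1 1 1), q * g.1 1 0]

/-- the matrix of the linear map `(a,b,c,d) ↦ ` entries of `g * N` -/
noncomputable def Ag (g : G) : Matrix (Fin 4) (Fin 4) ℝ := Aq (√3) g

theorem det_Ag (g : G) : (Ag g).det = 36 * (g.1 0 0 * g.1 1 1 - g.1 0 1 * g.1 1 0) ^ 2 := by
  have h3 : √3 ^ 2 = 3 := Real.sq_sqrt (by norm_num)
  have h : (Ag g).det = 12 * √3 ^ 2 * (g.1 0 0 * g.1 1 1 - g.1 0 1 * g.1 1 0) ^ 2 := by
    unfold Ag
    generalize √3 = q
    unfold Aq
    rw [Matrix.det_succ_row_zero]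
    simp [Fin.sum_univ_succ, Matrix.det_fin_three, Fin.succAbove, Matrix.submatrix]
    ring
  rw [h, h3]
  ring

theorem abs_det (g : G) : |(Ag g).det| = 36 := by
  have h1 : g.1 0 0 * g.1 1 1 - g.1 0 1 * g.1 1 0 = 1 := by
    have := g.2
    rwa [Matrix.det_fin_two] at this
  rw [det_Ag, h1]
  norm_num

theorem main : ShortStmt := by
  refine ⟨36, fun g => ?_⟩
  set f : (Fin 4 → ℝ) →ₗ[ℝ] (Fin 4 → ℝ) := Matrix.toLin' (Ag g) with hf
  have hdet : LinearMap.det f = (Ag g).det := LinearMap.det_toLin' _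
  have hdet0 : LinearMap.det f ≠ 0 := by
    rw [hdet]
    intro h
    have := abs_det g
    rw [h] at this
    norm_num at this
  set B : Set (Fin 4 → ℝ) := Set.Icc (fun _ => -3) (fun _ => 3) with hB
  set s : Set (Fin 4 → ℝ) := f ⁻¹' B with hs
  have hvol : volume s = ENNReal.ofReal 36 := by
    rw [hs, Measure.addHaar_preimage_linearMap _ hdet0, hdet, abs_inv, abs_det, hB,
      Real.volume_Icc_pi]
    simp only [Finset.prod_const, Finset.card_univ, Fintype.card_fin]
    rw [← ENNReal.ofReal_pow (by norm_num), ← ENNReal.ofReal_mul (by norm_num)]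
    norm_num
  have hfund := ZSpan.isAddFundamentalDomain' (Pi.basisFun ℝ (Fin 4)) volume
  have hF : volume (ZSpan.fundamentalDomain (Pi.basisFun ℝ (Fin 4))) = 1 := by
    rw [ZSpan.volume_fundamentalDomain]
    have : Matrix.of (Pi.basisFun ℝ (Fin 4)) = 1 := by
      ext i j
      simp [Matrix.one_apply, Pi.basisFun_apply, Pi.single_apply, eq_comm]
    rw [this, Matrix.det_one]
    simp
  have hsymm : ∀ x ∈ s, -x ∈ s := by
    intro x hx
    rw [hs, Set.mem_preimage, hB, Set.mem_Icc] at hx ⊢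
    rw [map_neg]
    constructor
    · intro i
      have := hx.2 i
      simp only [Pi.neg_apply] at this ⊢
      linarith
    · intro i
      have := hx.1 i
      simp only [Pi.neg_apply] at this ⊢
      linarith
  have hconv : Convex ℝ s := (convex_Icc _ _).is_linear_preimage f.isLinear
  have hcount : Countable (Submodule.span ℤ (range (Pi.basisFun ℝ (Fin 4)))).toAddSubgroup :=
    inferInstanceAs (Countable (Submodule.span ℤ (range (Pi.basisFun ℝ (Fin 4)))))
  obtain ⟨x, hx0, hxs⟩ := exists_ne_zero_mem_lattice_of_measure_mul_two_pow_lt_measure hfund hsymm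
    hconv (by
      rw [hF, hvol, Module.finrank_fin_fun]
      rw [show (1 : ENNReal) * 2 ^ 4 = ENNReal.ofReal 16 by
        rw [one_mul, show (16 : ℝ) = 2 ^ 4 by norm_num, ENNReal.ofReal_pow (by norm_num)]; simp]
      exact (ENNReal.ofReal_lt_ofReal_iff (by norm_num)).2 (by norm_num))
  have hint : ∀ i, ∃ z : ℤ, (z : ℝ) = (x : Fin 4 → ℝ) i := by
    intro i
    have := ((Pi.basisFun ℝ (Fin 4)).mem_span_iff_repr_mem ℤ (x : Fin 4 → ℝ)).1 x.2 i
    obtain ⟨z, hz⟩ := this
    refine ⟨z, ?_⟩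
    simpa using hz
  choose z hz using hint
  refine ⟨z 0, z 1, z 2, z 3, ?_, ?_⟩
  · by_contra hcon
    push Not at hcon
    obtain ⟨h0, h1, h2, h3⟩ := hcon
    apply hx0
    apply Subtype.ext
    funext i
    show (x : Fin 4 → ℝ) i = 0
    rw [← hz i]
    fin_cases i
    · simp [h0]
    · simp [h1]
    · simp [h2]
    · simp [h3]
  · intro M hM
    rw [hs, Set.mem_preimage, hB, Set.mem_Icc] at hxs
    have hb : ∀ i, (f (x : Fin 4 → ℝ) i) ^ 2 ≤ 9 := by
      intro i
      have h1 := hxs.1 i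
      have h2 := hxs.2 i
      simp only at h1 h2
      nlinarith
    have e0 : f (x : Fin 4 → ℝ) 0 = M 0 0 := by
      rw [hf, hM, Matrix.toLin'_apply]
      simp [Matrix.mulVec, dotProduct, Fin.sum_univ_succ, Ag, Aq, Matrix.mul_apply, ← hz]
      ring
    have e1 : f (x : Fin 4 → ℝ) 1 = M 0 1 := by
      rw [hf, hM, Matrix.toLin'_apply]
      simp [Matrix.mulVec, dotProduct, Fin.sum_univ_succ, Ag, Aq, Matrix.mul_apply, ← hz]
      ring
    have e2 : f (x : Fin 4 → ℝ) 2 = M 1 0 := by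
      rw [hf, hM, Matrix.toLin'_apply]
      simp [Matrix.mulVec, dotProduct, Fin.sum_univ_succ, Ag, Aq, Matrix.mul_apply, ← hz]
      ring
    have e3 : f (x : Fin 4 → ℝ) 3 = M 1 1 := by
      rw [hf, hM, Matrix.toLin'_apply]
      simp [Matrix.mulVec, dotProduct, Fin.sum_univ_succ, Ag, Aq, Matrix.mul_apply, ← hz]
      ring
    have a0 := hb 0
    have a1 := hb 1
    have a2 := hb 2
    have a3 := hb 3
    rw [e0] at a0
    rw [e1] at a1
    rw [e2] at a2
    rw [e3] at a3
    linarith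

end Pool.Agent.W18.BA.SH
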